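import Pool.Agent.helper34.MO.SpecD

/-! # CBX: every node with label 1 has a low triangle -/

set_option autoImplicit false

open Complex Finset

namespace Pool.Agent.MO

theorem CBX : CBX_stmt := by
  intro τ
  induction τ with
  | e =>
    intro ma mb x _
    simp [xc]
  | nd l r ihl ihr =>
    intro ma mb x hx
    have hl : lossy l r ma mb = true → l ≠ Tr.e ∧ ma < 13 ∧ l.rs + r.ls < 13 ∧ l.cnt < 13 := by
      intro h
      simp only [lossy, Bool.and_eq_true, decide_eq_true_eq] at h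
      exact ⟨h.1.1.1.2, h.1.1.1.1.1.1, h.1.1.1.1.2, h.1.2⟩
    have hr : lossy l r ma mb = true → r ≠ Tr.e ∧ l.rs + r.ls < 13 ∧ mb < 13 ∧ r.cnt < 13 := by
      intro h
      simp only [lossy, Bool.and_eq_true, decide_eq_true_eq] at h
      exact ⟨h.1.1.2, h.1.1.1.1.2, h.1.1.1.1.1.2, h.2⟩
    have h1 := ihl ma (l.rs + r.ls) (lossy l r ma mb) hl
    have h2 := ihr (l.rs + r.ls) mb (lossy l r ma mb) hr
    have h3 : (if x then 1 else 0) ≤ (if ma < 13 ∧ mb < 13 ∧ l.rs + r.ls < 13 then 1 else 0) := by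
      by_cases hxt : x = true
      · have h4 := hx hxt
        have h5 : ma < 13 ∧ mb < 13 ∧ l.rs + r.ls < 13 := ⟨h4.2.1, h4.2.2.1, h4.2.2.2⟩
        rw [if_pos h5]
        split_ifs <;> omega
      · rw [if_neg hxt]
        exact Nat.zero_le _
    simp only [xc, lowc]
    omega

end Pool.Agent.MO
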