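import Pool.Agent.helper34.MO.SpecB

/-! # DELN: deleted apex -/

set_option autoImplicit false

open Complex Finset

namespace Pool.Agent.MO

theorem DELN_add (hA2P : A2P_stmt) (A B m al : ℂ) (q : ℝ) (h : Acc2 A B m) (hal : 0 ≤ al.re) (hq : 0 ≤ q) :
    Acc2 (A + al) (B + q) m := by
  have h1 : Psd2 al (q : ℂ) 0 := by
    refine ⟨hal, by simpa using hq, ?_⟩
    simp only [Complex.zero_re, Complex.ofReal_re]
    rw [zero_pow two_ne_zero]
    exact mul_nonneg hal hq
  have h2 := hA2P.1 A B m al q 0 h h1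
  simpa using h2

theorem DELN_symm (A B m : ℂ) (h : Acc2 A B m) : Acc2 B A m :=
  ⟨h.2.1, h.1, by rw [mul_comm]; exact h.2.2⟩

theorem DELN (hACT : ACT_stmt) (hA2P : A2P_stmt) (hEX2 : EX2_stmt) : DELN_stmt := by
  intro l r l' r' hl hr
  refine ⟨?_, ?_, ?_, ?_⟩
  · intro h1 h2 s hs
    obtain ⟨hacc, hg, _⟩ := hs
    have hal : 0 ≤ (bd l').al.re := (hACT l' hl).1
    have hq : ∀ q : ℝ, 0 ≤ q → 0 ≤ s.ph + (bd l').psi + ph2 (s.A + (bd l').al) (s.B + q) s.m := by
      intro q hq
      have ha : Acc2 s.A (s.B + q) s.m := by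
        have := DELN_add hA2P s.A s.B s.m 0 q hacc (by simp) hq
        simpa using this
      have hre := (hEX2 (s.B + q) s.A s.m (DELN_symm _ _ _ ha)).2
      have hg1 : Good1 (s.ph + Complex.arg (s.B + q)) (s.A - s.m ^ 2 / (s.B + q)) := by
        intro p hp
        have h3 := hg p q hp hq
        have h4 : Acc2 (s.A + p) (s.B + q) s.m := DELN_add hA2P s.A s.B s.m p q hacc (by simpa using hp) hq
        rw [(hEX2 _ _ _ h4).1] at h3
        unfold ph2 at h3
        have e : s.A + (p : ℂ) - s.m ^ 2 / (s.B + q) = s.A - s.m ^ 2 / (s.B + q) + p := by ring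
        rw [e] at h3
        linarith
      have h5 := h1 _ _ hre hg1
      have h6 : Acc2 (s.A + (bd l').al) (s.B + q) s.m := DELN_add hA2P s.A s.B s.m (bd l').al q hacc hal hq
      rw [(hEX2 _ _ _ h6).1]
      unfold ph2
      have e : s.A + (bd l').al - s.m ^ 2 / (s.B + q) = s.A - s.m ^ 2 / (s.B + q) + (bd l').al := by ring
      rw [e]
      linarith
    have h6 : Acc2 (s.A + (bd l').al) s.B s.m := by
      have := DELN_add hA2P s.A s.B s.m (bd l').al 0 hacc hal le_rfl
      simpa using this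
    have hre := (hEX2 _ _ _ h6).2
    have hg2 : Good1 (s.ph + (bd l').psi + Complex.arg (s.A + (bd l').al)) (s.B - s.m ^ 2 / (s.A + (bd l').al)) := by
      intro q hq0
      have h7 := hq q hq0
      unfold ph2 at h7
      have e : s.B + (q : ℂ) - s.m ^ 2 / (s.A + (bd l').al) = s.B - s.m ^ 2 / (s.A + (bd l').al) + q := by ring
      rw [e] at h7
      linarith
    have h8 := h2 _ _ hre hg2
    unfold tot
    simp only [bd, add_zero]
    unfold ph2
    have e : s.B + (bd r').be - s.m ^ 2 / (s.A + (bd l').al) = s.B - s.m ^ 2 / (s.A + (bd l').al) + (bd r').be := by ring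
    rw [e]
    linarith
  · intro h1 h2 f A hA hg
    have h3 := h1 f A hA hg
    have h4 : 0 ≤ (bd r').psi := h2
    simp only [bd]
    linarith
  · intro h1 h2 f A hA hg
    have h3 := h2 f A hA hg
    have h4 : 0 ≤ (bd l').psi := h1
    simp only [bd]
    linarith
  · intro h1 h2
    have h3 : 0 ≤ (bd l').psi := h1
    have h4 : 0 ≤ (bd r').psi := h2
    show 0 ≤ (bd (.nd none l' r')).psi
    simp only [bd]
    linarith

end Pool.Agent.MO
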